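import Pool.Agent.Q178.HNH.Defs

set_option autoImplicit false

/-!
Covering numbers of non-Hausdorff manifolds: definitions.
-/

universe u

namespace Q178.Ext

open Set Q178.HNH
open scoped Cardinal

/-- A space is everywhere non-Hausdorff if no `NH(x)` is empty. -/
def IsENH (M : Type u) [TopologicalSpace M] : Prop := ∀ x : M, (NH x).Nonempty

/-- The least cardinality of a cover by open subsets homeomorphic to `ℝⁿ`. -/
noncomputable def euclNum (n : ℕ) (M : Type u) [TopologicalSpace M] : Cardinal.{u} :=
  sInf {κ | ∃ T : Set (Set M), (∀ U ∈ T, IsOpen U ∧ Nonempty (U ≃ₜ EuclideanSpace ℝ (Fin n))) ∧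
    ⋃₀ T = univ ∧ #T = κ}

/-- The least cardinality of a cover by open Hausdorff subsets. -/
noncomputable def hausNum (M : Type u) [TopologicalSpace M] : Cardinal.{u} :=
  sInf {κ | ∃ T : Set (Set M), (∀ U ∈ T, IsOpen U ∧ T2Space U) ∧ ⋃₀ T = univ ∧ #T = κ}

/-- The covering number of category: the least cardinality of a cover of the real line by nowhere
dense sets. -/
noncomputable def covB : Cardinal.{0} :=
  sInf {κ | ∃ T : Set (Set ℝ), (∀ Z ∈ T, IsNowhereDense Z) ∧ ⋃₀ T = univ ∧ #T = κ}

end Q178.Ext
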