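import Pool.Agent.Q178.Ext.Homogen

set_option autoImplicit false

/-!
The covering numbers of everywhere non-Hausdorff manifolds.
-/

universe u

namespace Q178.Ext

open Set Filter Topology Q178.HNH
open scoped Cardinal

/-- Homogeneous non-Hausdorff manifolds are everywhere non-Hausdorff. -/
lemma isENH_of_isHNH {n : ℕ} {M : Type u} [TopologicalSpace M] (hM : IsHNH n M) : IsENH M := by
  have h1 : ∃ x y : M, x ≠ y ∧ ∀ U V : Set M, IsOpen U → IsOpen V → y ∈ U → x ∈ V →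
      (U ∩ V).Nonempty := by
    by_contra h
    push Not at h
    apply hM.notHausdorff
    constructor
    intro x y hxy
    obtain ⟨U, V, hU, hV, hy, hx, hUV⟩ := h x y hxy
    exact ⟨V, U, hV, hU, hx, hy, by rw [Set.disjoint_iff_inter_eq_empty, inter_comm]; exact hUV⟩
  obtain ⟨x, y, hxy, hsep⟩ := h1
  intro z
  obtain ⟨h, hh⟩ := hM.homogeneous x z
  refine ⟨h y, fun he => hxy (h.injective (by rw [hh, ← he])), fun U V hU hV hyU hzV => ?_⟩
  obtain ⟨w, hw1, hw2⟩ := hsep (h ⁻¹' U) (h ⁻¹' V) (hU.preimage h.continuous)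
    (hV.preimage h.continuous) hyU (by rw [mem_preimage, hh]; exact hzV)
  exact ⟨h w, hw1, hw2⟩

lemma haus_lt {n : ℕ} {M : Type u} [TopologicalSpace M] (hM : IsMfd n M)
    (h : hausNum M < euclNum n M) : hausNum M < 𝔠 := by
  by_contra h1
  rw [not_lt] at h1
  have h2 := euclNum_le_max hM
  rw [max_eq_right h1] at h2
  exact absurd h (not_lt.2 h2)

lemma covB_le : covB ≤ 𝔠 := by
  have h1 : covB ≤ #(range fun x : ℝ => ({x} : Set ℝ)) := by
    refine csInf_le' ⟨range fun x : ℝ => ({x} : Set ℝ), ?_, ?_, rfl⟩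
    · rintro _ ⟨x, rfl⟩
      rw [isClosed_singleton.isNowhereDense_iff]
      exact interior_singleton x
    · rw [sUnion_range]
      apply eq_univ_of_forall
      intro x
      exact mem_iUnion.2 ⟨x, rfl⟩
  refine h1.trans (Cardinal.mk_range_le.trans ?_)
  rw [Cardinal.mk_real]

theorem final :
    ((∃ (n : ℕ) (M : Type) (_ : TopologicalSpace M),
      IsMfd n M ∧ IsENH M ∧ hausNum M < euclNum n M) ↔ covB < 𝔠) ∧
    (covB = 𝔠 → ∀ (n : ℕ) (M : Type u) [TopologicalSpace M], IsMfd n M → IsENH M →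
      euclNum n M = hausNum M) ∧
    (covB = 𝔠 → ∀ (n : ℕ) (M : Type u) [TopologicalSpace M], IsHNH n M →
      euclNum n M = hausNum M) ∧
    ((∃ (n : ℕ) (M : Type) (_ : TopologicalSpace M), IsHNH n M ∧ hausNum M < euclNum n M) ↔
      ∃ (n : ℕ) (M : Type) (_ : TopologicalSpace M), IsHNH n M ∧ hausNum M < 𝔠) := by
  have key : covB = 𝔠 → ∀ (n : ℕ) (M : Type u) [TopologicalSpace M], IsMfd n M → IsENH M →
      euclNum n M = hausNum M := by
    intro hc n M _ hM hE
    apply le_antisymm _ (hausNum_le_euclNum M (mfdLoc hM))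
    by_contra h
    rw [not_le] at h
    have h1 := covB_lt hM hE (haus_lt hM h)
    rw [hc] at h1
    exact lt_irrefl _ h1
  refine ⟨⟨?_, ?_⟩, key, fun hc n M _ hM => key hc n M hM.manifold (isENH_of_isHNH hM), ?_, ?_⟩
  · rintro ⟨n, M, _, hM, hE, h⟩
    exact covB_lt hM hE (haus_lt hM h)
  · intro h
    obtain ⟨M, hM, h1, h2, h3⟩ := exists_of_lt h
    exact ⟨2, M, hM, h1, h2, h3⟩
  · rintro ⟨n, M, _, hM, h⟩
    exact ⟨n, M, inferInstance, hM, haus_lt hM.manifold h⟩
  · rintro ⟨n, M, _, hM, h⟩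
    obtain ⟨N, hN, h1, h2⟩ := hnh_prod hM h
    exact ⟨n + 2, N, hN, h1, h2⟩

end Q178.Ext
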