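import Pool.Agent.Q178.Ext.Twin

set_option autoImplicit false
set_option linter.unusedSectionVars false

/-!
Connected Hausdorff manifolds are homogeneous; products with the Pruefer surface.
-/

universe u

namespace Q178.Ext

open Set Filter Topology Q178.HNH
open scoped Cardinal NNReal

section Push

variable {E : Type} [NormedAddCommGroup E] [NormedSpace ℝ E] [CompleteSpace E]

/-- The displacement. -/
noncomputable def disp (R : ℝ) (v x : E) : E := (max 0 (1 - ‖x‖ / R)) • v

lemma disp_zero (R : ℝ) (v : E) : disp R v 0 = v := by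
  simp [disp]

lemma disp_of_le {R : ℝ} (hR : 0 < R) (v : E) {x : E} (hx : R ≤ ‖x‖) : disp R v x = 0 := by
  unfold disp
  rw [max_eq_left, zero_smul]
  have : 1 ≤ ‖x‖ / R := by rwa [le_div_iff₀ hR, one_mul]
  linarith

lemma norm_disp_sub {R : ℝ} (hR : 0 < R) (v x y : E) :
    ‖disp R v x - disp R v y‖ ≤ ‖v‖ / R * ‖x - y‖ := by
  unfold disp
  rw [← sub_smul, norm_smul, Real.norm_eq_abs]
  have h1 : |max 0 (1 - ‖x‖ / R) - max 0 (1 - ‖y‖ / R)| ≤ ‖x - y‖ / R := by
    have h0 : |max 0 (1 - ‖x‖ / R) - max 0 (1 - ‖y‖ / R)| ≤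
        |(1 - ‖x‖ / R) - (1 - ‖y‖ / R)| := by
      rw [max_comm 0, max_comm 0]
      exact abs_max_sub_max_le_abs (1 - ‖x‖ / R) (1 - ‖y‖ / R) 0
    refine h0.trans ?_
    have h2 : (1 - ‖x‖ / R) - (1 - ‖y‖ / R) = -((‖x‖ - ‖y‖) / R) := by ring
    rw [h2, abs_neg, abs_div, abs_of_pos hR]
    exact div_le_div_of_nonneg_right (abs_norm_sub_norm_le x y) hR.le
  calc |max 0 (1 - ‖x‖ / R) - max 0 (1 - ‖y‖ / R)| * ‖v‖ ≤ ‖x - y‖ / R * ‖v‖ :=
        mul_le_mul_of_nonneg_right h1 (norm_nonneg _)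
    _ = ‖v‖ / R * ‖x - y‖ := by ring

/-- A homeomorphism with bounded support moving the origin to a given vector. -/
lemma exists_push (v : E) : ∃ (R : ℝ) (φ : E ≃ₜ E), 0 < R ∧ φ 0 = v ∧ (∀ x, R ≤ ‖x‖ → φ x = x) ∧
    ∀ x, R ≤ ‖x‖ → φ.symm x = x := by
  set R : ℝ := 2 * ‖v‖ + 1 with hR
  have hR0 : 0 < R := by positivity
  let c : ℝ≥0 := ⟨1 / 2, by norm_num⟩
  have hf : ApproximatesLinearOn (fun x : E => x + disp R v x)
      ((ContinuousLinearEquiv.refl ℝ E : E ≃L[ℝ] E) : E →L[ℝ] E) univ c := by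
    intro x _ y _
    have h1 : x + disp R v x - (y + disp R v y) -
        ((ContinuousLinearEquiv.refl ℝ E : E ≃L[ℝ] E) : E →L[ℝ] E) (x - y) =
        disp R v x - disp R v y := by
      simp only [ContinuousLinearEquiv.coe_coe, ContinuousLinearEquiv.coe_refl', id_eq]
      abel
    rw [h1]
    refine (norm_disp_sub hR0 v x y).trans ?_
    apply mul_le_mul_of_nonneg_right _ (norm_nonneg _)
    change ‖v‖ / R ≤ 1 / 2
    rw [div_le_div_iff₀ hR0 two_pos]
    linarith
  have hc : Subsingleton E ∨ c < ‖((ContinuousLinearEquiv.refl ℝ E : E ≃L[ℝ] E).symm :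
      E →L[ℝ] E)‖₊⁻¹ := by
    rcases subsingleton_or_nontrivial E with h | h
    · exact Or.inl h
    · right
      have h1 : ‖((ContinuousLinearEquiv.refl ℝ E : E ≃L[ℝ] E).symm : E →L[ℝ] E)‖₊ = 1 := by
        have h2 : ((ContinuousLinearEquiv.refl ℝ E : E ≃L[ℝ] E).symm : E →L[ℝ] E) =
            ContinuousLinearMap.id ℝ E := rfl
        rw [h2]
        exact ContinuousLinearMap.nnnorm_id
      rw [h1, inv_one]
      change ((1 / 2 : ℝ)) < 1
      norm_num
  let φ := hf.toHomeomorph _ hc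
  have hφ : ∀ x, φ x = x + disp R v x := fun x => rfl
  refine ⟨R, φ, hR0, ?_, ?_, ?_⟩
  · rw [hφ, disp_zero, zero_add]
  · intro x hx
    rw [hφ, disp_of_le hR0 v hx, add_zero]
  · intro x hx
    rw [Homeomorph.symm_apply_eq, hφ, disp_of_le hR0 v hx, add_zero]

end Push

open Classical in
/-- Extending a map of a chart by the identity. -/
noncomputable def extMap {E X : Type*} (e : E → X) (φ : E → E) (z : X) : X :=
  if h : z ∈ range e then e (φ h.choose) else z

lemma extMap_apply {E X : Type*} {e : E → X} (he : Function.Injective e) (φ : E → E) (v : E) :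
    extMap e φ (e v) = e (φ v) := by
  have h : e v ∈ range e := ⟨v, rfl⟩
  unfold extMap
  rw [dif_pos h, he h.choose_spec]

lemma extMap_of_notMem {E X : Type*} {e : E → X} (φ : E → E) {z : X} (h : z ∉ range e) :
    extMap e φ z = z := dif_neg h

lemma continuous_extMap {n : ℕ} {X : Type u} [TopologicalSpace X] [T2Space X]
    {e : EuclideanSpace ℝ (Fin n) → X} (he : IsOpenEmbedding e)
    {φ : EuclideanSpace ℝ (Fin n) → EuclideanSpace ℝ (Fin n)} (hφ : Continuous φ) {R : ℝ}
    (hR : ∀ x, R ≤ ‖x‖ → φ x = x) : Continuous (extMap e φ) := by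
  rw [continuous_iff_continuousAt]
  intro z
  by_cases hz : z ∈ range e
  · obtain ⟨v, rfl⟩ := hz
    rw [← he.continuousAt_iff]
    have h1 : extMap e φ ∘ e = e ∘ φ := funext fun v => extMap_apply he.injective φ v
    rw [h1]
    exact (he.continuous.comp hφ).continuousAt
  · -- near `z` the map is the identity
    have hK : IsClosed (e '' Metric.closedBall 0 R) :=
      ((isCompact_closedBall _ _).image he.continuous).isClosed
    have hzK : z ∈ (e '' Metric.closedBall 0 R)ᶜ := fun h => hz (image_subset_range _ _ h)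
    have h1 : (fun z => z) =ᶠ[𝓝 z] extMap e φ := by
      filter_upwards [hK.isOpen_compl.mem_nhds hzK] with w hw
      by_cases hw' : w ∈ range e
      · obtain ⟨v, rfl⟩ := hw'
        rw [extMap_apply he.injective, hR]
        by_contra h
        apply hw
        refine ⟨v, ?_, rfl⟩
        rw [mem_closedBall_zero_iff]
        exact (not_le.1 h).le
      · exact (extMap_of_notMem φ hw').symm
    exact continuousAt_id.congr h1

/-- Connected Hausdorff manifolds are homogeneous. -/
theorem isHomogeneous_of_mfd {n : ℕ} {X : Type u} [TopologicalSpace X] [T2Space X]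
    (hX : IsMfd n X) : IsHomogeneous X := by
  have hconn := hX.connected
  -- moving points in a chart
  have key : ∀ (e : EuclideanSpace ℝ (Fin n) → X), IsOpenEmbedding e →
      ∀ v, ∃ h : X ≃ₜ X, h (e 0) = e v := by
    intro e he v
    obtain ⟨R, φ, hR, h0, h1, h2⟩ := exists_push v
    have hinv : ∀ (f g : EuclideanSpace ℝ (Fin n) → EuclideanSpace ℝ (Fin n)),
        (∀ x, f (g x) = x) → ∀ z, extMap e f (extMap e g z) = z := by
      intro f g hfg z
      by_cases hz : z ∈ range e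
      · obtain ⟨w, rfl⟩ := hz
        rw [extMap_apply he.injective, extMap_apply he.injective, hfg]
      · rw [extMap_of_notMem g hz, extMap_of_notMem f hz]
    refine ⟨{ toFun := extMap e φ
              invFun := extMap e φ.symm
              left_inv := hinv _ _ φ.symm_apply_apply
              right_inv := hinv _ _ φ.apply_symm_apply
              continuous_toFun := continuous_extMap he φ.continuous h1
              continuous_invFun := continuous_extMap he φ.symm.continuous h2 }, ?_⟩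
    change extMap e φ (e 0) = e v
    rw [extMap_apply he.injective, h0]
  intro x y
  let S : Set X := {z | ∃ h : X ≃ₜ X, h x = z}
  have hloc : ∀ z, ∃ O : Set X, IsOpen O ∧ z ∈ O ∧ ∀ a ∈ O, ∀ b ∈ O, ∃ h : X ≃ₜ X, h a = b := by
    intro z
    obtain ⟨e, he, hze, -⟩ := mfdLoc hX z univ isOpen_univ (mem_univ _)
    refine ⟨range e, he.isOpen_range, hze, ?_⟩
    rintro _ ⟨v, rfl⟩ _ ⟨w, rfl⟩
    obtain ⟨h1, hh1⟩ := key e he v
    obtain ⟨h2, hh2⟩ := key e he w
    refine ⟨h1.symm.trans h2, ?_⟩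
    rw [Homeomorph.trans_apply, ← hh1, h1.symm_apply_apply, hh2]
  have hSo : IsOpen S := by
    rw [isOpen_iff_mem_nhds]
    rintro z ⟨h, hz⟩
    obtain ⟨O, hO, hzO, hh⟩ := hloc z
    refine mem_of_superset (hO.mem_nhds hzO) fun w hw => ?_
    obtain ⟨g, hg⟩ := hh z hzO w hw
    exact ⟨h.trans g, by rw [Homeomorph.trans_apply, hz, hg]⟩
  have hSc : IsOpen Sᶜ := by
    rw [isOpen_iff_mem_nhds]
    intro z hz
    obtain ⟨O, hO, hzO, hh⟩ := hloc z
    refine mem_of_superset (hO.mem_nhds hzO) fun w hw hwS => hz ?_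
    obtain ⟨h, hx⟩ := hwS
    obtain ⟨g, hg⟩ := hh w hw z hzO
    exact ⟨h.trans g, by rw [Homeomorph.trans_apply, hx, hg]⟩
  have hxS : x ∈ S := ⟨Homeomorph.refl X, rfl⟩
  have hyS : y ∈ S := by
    rcases isClopen_iff.1 (⟨⟨hSc⟩, hSo⟩ : IsClopen S) with h | h
    · rw [h] at hxS
      exact hxS.elim
    · rw [h]
      exact mem_univ y
  exact hyS

/-! ### Products with the Pruefer surface -/

lemma isMfd_prod {n m : ℕ} {M X : Type} [TopologicalSpace M] [TopologicalSpace X]
    (hM : IsMfd n M) (hX : IsMfd m X) : IsMfd (n + m) (M × X) where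
  connected := by
    have := hM.connected
    have := hX.connected
    infer_instance
  euclidean := by
    rintro ⟨a, b⟩
    obtain ⟨U, hU, haU, ⟨e⟩⟩ := hM.euclidean a
    obtain ⟨V, hV, hbV, ⟨f⟩⟩ := hX.euclidean b
    obtain ⟨g⟩ := FiniteDimensional.nonempty_continuousLinearEquiv_of_finrank_eq (𝕜 := ℝ)
      (E := EuclideanSpace ℝ (Fin n) × EuclideanSpace ℝ (Fin m))
      (F := EuclideanSpace ℝ (Fin (n + m))) (by simp)
    exact ⟨U ×ˢ V, hU.prod hV, ⟨haU, hbV⟩,
      ⟨(Homeomorph.Set.prod U V).trans ((e.prodCongr f).trans g.toHomeomorph)⟩⟩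

/-- A homogeneous non-Hausdorff manifold with small Hausdorff covering number yields one with
different covering numbers. -/
theorem hnh_prod {n : ℕ} {M : Type} [TopologicalSpace M] (hM : IsHNH n M) (h : hausNum M < 𝔠) :
    ∃ (N : Type) (_ : TopologicalSpace N), IsHNH (n + 2) N ∧ hausNum N < euclNum (n + 2) N := by
  have hmfd : IsMfd (n + 2) (M × Pr) := isMfd_prod hM.manifold isMfd_Pr
  obtain ⟨m0⟩ : Nonempty M := hM.manifold.connected.toNonempty
  refine ⟨M × Pr, inferInstance, ⟨hmfd, ?_, ?_⟩, ?_⟩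
  · rintro ⟨a, b⟩ ⟨a', b'⟩
    obtain ⟨h1, hh1⟩ := hM.homogeneous a a'
    obtain ⟨h2, hh2⟩ := isHomogeneous_of_mfd isMfd_Pr b b'
    exact ⟨h1.prodCongr h2, Prod.ext hh1 hh2⟩
  · intro hT
    apply hM.notHausdorff
    have h1 : IsEmbedding fun m : M => (m, dsc 0) := isEmbedding_prodMkLeft (dsc 0)
    exact h1.t2Space
  · obtain ⟨T, hT, hcov, hcard⟩ := hausNum_mem M (mfdLoc hM.manifold)
    have h1 : hausNum (M × Pr) ≤ #T := by
      have h2 : hausNum (M × Pr) ≤ #(range fun W : T => W.1 ×ˢ (univ : Set Pr)) := by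
        apply hausNum_le
        · rintro _ ⟨W, rfl⟩
          obtain ⟨hWo, hW2⟩ := hT W.1 W.2
          refine ⟨hWo.prod isOpen_univ, ?_⟩
          exact (Homeomorph.Set.prod W.1 (univ : Set Pr)).isEmbedding.t2Space
        · apply eq_univ_of_forall
          rintro ⟨a, b⟩
          have h3 : a ∈ ⋃₀ T := by rw [hcov]; exact mem_univ _
          obtain ⟨W, hW, ha⟩ := h3
          exact ⟨_, ⟨⟨W, hW⟩, rfl⟩, ⟨ha, mem_univ b⟩⟩
      exact h2.trans Cardinal.mk_range_le
    have h2 : 𝔠 ≤ euclNum (n + 2) (M × Pr) := by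
      apply euclNum_ge (mfdLoc hmfd) (fun a => (m0, dsc a)) (fun a => univ ×ˢ range (pch a))
      · intro a
        exact isOpen_univ.prod (isOpenEmbedding_pch a).isOpen_range
      · intro a
        exact ⟨mem_univ _, (dsc_mem_range_iff a a).2 rfl⟩
      · rintro a b ⟨-, hb⟩
        exact (dsc_mem_range_iff a b).1 hb
    rw [hcard] at h1
    exact (h1.trans_lt h).trans_le h2

end Q178.Ext
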