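import Pool.Agent.Q178.Ext.Upper

set_option autoImplicit false
set_option linter.unusedSectionVars false

/-!
The Hausdorff covering number of an everywhere non-Hausdorff manifold bounds the covering number
of category.
-/

universe u v

namespace Q178.Ext

open Set Filter Topology Q178.HNH
open scoped Cardinal

/-- A space is covered by closed sets with empty interior, indexed by a given type. -/
def Cov (ι : Type u) (Y : Type v) [TopologicalSpace Y] : Prop :=
  ∃ Z : ι → Set Y, (∀ i, IsClosed (Z i) ∧ interior (Z i) = ∅) ∧ ⋃ i, Z i = univ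

lemma Cov.preimage {ι : Type u} {Y Y' : Type v} [TopologicalSpace Y] [TopologicalSpace Y']
    (h : Cov ι Y) (f : Y' ≃ₜ Y) : Cov ι Y' := by
  obtain ⟨Z, hZ, hcov⟩ := h
  refine ⟨fun i => f ⁻¹' Z i, fun i => ⟨(hZ i).1.preimage f.continuous, ?_⟩, ?_⟩
  · rw [← f.preimage_interior, (hZ i).2, preimage_empty]
  · rw [← preimage_iUnion, hcov, preimage_univ]

lemma cov_prod {ι : Type u} {Y : Type} [TopologicalSpace Y] [SecondCountableTopology Y]
    (h : Cov ι (ℝ × Y)) : Cov (ι × ℕ) ℝ ∨ Cov ι Y := by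
  classical
  obtain ⟨Z, hZ, hcov⟩ := h
  by_cases hY : Nonempty Y
  swap
  · right
    refine ⟨fun _ => ∅, fun i => ⟨isClosed_empty, interior_empty⟩, ?_⟩
    ext y
    exact (hY ⟨y⟩).elim
  obtain ⟨B, hBc, hBe, hB⟩ := TopologicalSpace.exists_countable_basis Y
  have hBne : B.Nonempty := by
    by_contra hB0
    rw [not_nonempty_iff_eq_empty] at hB0
    obtain ⟨y⟩ := hY
    obtain ⟨V, hV, -⟩ := hB.exists_subset_of_mem_open (mem_univ y) isOpen_univ
    rw [hB0] at hV
    exact hV
  obtain ⟨V, hV⟩ := hBc.exists_eq_range hBne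
  have hVo : ∀ k, IsOpen (V k) := fun k => hB.isOpen (by rw [hV]; exact mem_range_self k)
  have hVne : ∀ k, (V k).Nonempty := by
    intro k
    rw [nonempty_iff_ne_empty]
    intro h
    apply hBe
    rw [← h, hV]
    exact mem_range_self k
  let Z' : ι × ℕ → Set ℝ := fun q => {x | ∀ y ∈ V q.2, (x, y) ∈ Z q.1}
  by_cases hcase : ⋃ q, Z' q = univ
  · left
    refine ⟨Z', fun q => ⟨?_, ?_⟩, hcase⟩
    · have : Z' q = ⋂ y ∈ V q.2, (fun x : ℝ => (x, y)) ⁻¹' Z q.1 := by
        ext x
        simp [Z']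
      rw [this]
      exact isClosed_biInter fun y _ => (hZ q.1).1.preimage (by fun_prop)
    · rw [eq_empty_iff_forall_notMem]
      intro x hx
      have h1 : interior (Z' q) ×ˢ V q.2 ⊆ interior (Z q.1) := by
        apply interior_maximal _ (isOpen_interior.prod (hVo q.2))
        rintro ⟨x', y'⟩ ⟨hx', hy'⟩
        exact interior_subset hx' y' hy'
      obtain ⟨y, hy⟩ := hVne q.2
      have h2 := h1 (⟨hx, hy⟩ : (x, y) ∈ interior (Z' q) ×ˢ V q.2)
      rw [(hZ q.1).2] at h2
      exact h2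
  · right
    obtain ⟨x, hx⟩ := (ne_univ_iff_exists_notMem _).1 hcase
    refine ⟨fun i => (fun y : Y => (x, y)) ⁻¹' Z i, fun i => ⟨(hZ i).1.preimage (by fun_prop), ?_⟩,
      ?_⟩
    · rw [eq_empty_iff_forall_notMem]
      intro y hy
      obtain ⟨W, hW, hyW, hWs⟩ := hB.exists_subset_of_mem_open hy isOpen_interior
      rw [hV] at hW
      obtain ⟨k, rfl⟩ := hW
      apply hx
      refine mem_iUnion.2 ⟨(i, k), fun y' hy' => ?_⟩
      have h1 : y' ∈ (fun y : Y => (x, y)) ⁻¹' Z i := interior_subset (hWs hy')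
      exact h1
    · rw [← preimage_iUnion, hcov, preimage_univ]

/-- Splitting off a coordinate. -/
def consH (n : ℕ) : (ℝ × (Fin n → ℝ)) ≃ₜ (Fin (n + 1) → ℝ) where
  toFun p := Fin.cons p.1 p.2
  invFun f := (f 0, Fin.tail f)
  left_inv p := by simp
  right_inv f := by simp
  continuous_toFun := by
    apply continuous_pi
    intro i
    refine Fin.cases ?_ (fun j => ?_) i
    · simp only [Fin.cons_zero]
      exact continuous_fst
    · simp only [Fin.cons_succ]
      fun_prop
  continuous_invFun := by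
    apply Continuous.prodMk (continuous_apply 0)
    apply continuous_pi
    intro i
    exact continuous_apply i.succ

lemma cov_real {ι : Type u} (n : ℕ) (h : Cov ι (Fin n → ℝ)) : Cov (ι × ℕ) ℝ := by
  induction n with
  | zero =>
    exfalso
    obtain ⟨Z, hZ, hcov⟩ := h
    have h1 : (default : Fin 0 → ℝ) ∈ ⋃ i, Z i := by rw [hcov]; exact mem_univ _
    obtain ⟨i, hi⟩ := mem_iUnion.1 h1
    have h2 : Z i = univ := by
      apply eq_univ_of_forall
      intro y
      rwa [Subsingleton.elim y default]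
    have h3 := (hZ i).2
    rw [h2, interior_univ] at h3
    have h4 : (default : Fin 0 → ℝ) ∈ (univ : Set (Fin 0 → ℝ)) := mem_univ _
    rw [h3] at h4
    exact h4
  | succ n ih =>
    rcases cov_prod (h.preimage (consH n)) with h1 | h1
    · exact h1
    · exact ih h1

/-- A cover of an everywhere non-Hausdorff manifold by open Hausdorff sets yields a cover of
the Euclidean space by nowhere dense sets. -/
lemma cov_of_haus {n : ℕ} {M : Type u} [TopologicalSpace M] (hM : IsMfd n M) (hE : IsENH M)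
    {T : Set (Set M)} (hT : ∀ U ∈ T, IsOpen U ∧ T2Space U) (hcov : ⋃₀ T = univ) :
    Cov T (EuclideanSpace ℝ (Fin n)) := by
  obtain ⟨x0⟩ : Nonempty M := hM.connected.toNonempty
  obtain ⟨e, he, -, -⟩ := mfdLoc hM x0 univ isOpen_univ (mem_univ _)
  refine ⟨fun W => e ⁻¹' (closure W.1 \ W.1), fun W => ⟨?_, ?_⟩, ?_⟩
  · exact ((isClosed_closure).sdiff (hT W.1 W.2).1).preimage he.continuous
  · rw [eq_empty_iff_forall_notMem]
    intro v hv
    obtain ⟨O, hO1, hO2, hvO⟩ := mem_interior.1 hv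
    have h1 : IsOpen (e '' O) := he.isOpenMap O hO2
    have h2 : e v ∈ closure W.1 := (hO1 hvO).1
    obtain ⟨w, hw1, hw2⟩ := mem_closure_iff.1 h2 _ h1 ⟨v, hvO, rfl⟩
    obtain ⟨v', hv', rfl⟩ := hw1
    exact (hO1 hv').2 hw2
  · apply eq_univ_of_forall
    intro v
    obtain ⟨y, hyx, hy⟩ := hE (e v)
    have h1 : y ∈ ⋃₀ T := by rw [hcov]; exact mem_univ _
    obtain ⟨W, hW, hyW⟩ := h1
    obtain ⟨hWo, hW2⟩ := hT W hW
    refine mem_iUnion.2 ⟨⟨W, hW⟩, ?_, ?_⟩
    · change e v ∈ closure W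
      rw [mem_closure_iff]
      intro O hO hvO
      obtain ⟨z, hz1, hz2⟩ := hy W O hWo hO hyW hvO
      exact ⟨z, hz2, hz1⟩
    · change e v ∉ W
      intro hvW
      have hne : (⟨y, hyW⟩ : W) ≠ ⟨e v, hvW⟩ := fun h => hyx (congrArg Subtype.val h)
      obtain ⟨U, V, hU, hV, hyU, hvV, hd⟩ := t2_separation hne
      obtain ⟨z, ⟨a, ha, rfl⟩, ⟨b, hb, hab⟩⟩ := hy _ _ (hWo.isOpenMap_subtype_val U hU)
        (hWo.isOpenMap_subtype_val V hV) ⟨_, hyU, rfl⟩ ⟨_, hvV, rfl⟩
      have : b = a := Subtype.ext hab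
      exact hd.ne_of_mem ha hb this.symm

lemma lift_covB_le {ι : Type u} (h : Cov ι ℝ) : Cardinal.lift.{u} covB ≤ #ι := by
  obtain ⟨Z, hZ, hcov⟩ := h
  have h1 : covB ≤ #(range Z) := by
    refine csInf_le' ⟨range Z, ?_, ?_, rfl⟩
    · rintro _ ⟨i, rfl⟩
      rw [(hZ i).1.isNowhereDense_iff]
      exact (hZ i).2
    · rw [sUnion_range]
      exact hcov
  have h2 := Cardinal.mk_range_le_lift (f := Z)
  rw [Cardinal.lift_id'.{0, u}] at h2
  exact (Cardinal.lift_le.2 h1).trans h2

/-- If an everywhere non-Hausdorff manifold has a cover by fewer than continuum many open Hausdorff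
sets, then the covering number of category is less than the continuum. -/
theorem covB_lt {n : ℕ} {M : Type u} [TopologicalSpace M] (hM : IsMfd n M) (hE : IsENH M)
    (h : hausNum M < 𝔠) : covB < 𝔠 := by
  obtain ⟨T, hT, hcov, hcard⟩ := hausNum_mem M (mfdLoc hM)
  have h1 := cov_of_haus hM hE hT hcov
  have e : (Fin n → ℝ) ≃ₜ EuclideanSpace ℝ (Fin n) := (PiLp.homeomorph 2 (fun _ : Fin n => ℝ)).symm
  have h2 := lift_covB_le (cov_real n (h1.preimage e))
  have h3 : #(T × ℕ) < 𝔠 := by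
    rw [Cardinal.mk_prod, Cardinal.mk_nat, Cardinal.lift_id'.{0, u}, Cardinal.lift_aleph0]
    apply Cardinal.mul_lt_of_lt Cardinal.aleph0_le_continuum
    · rw [hcard]
      exact h
    · exact Cardinal.aleph0_lt_continuum
  have h4 : Cardinal.lift.{u} covB < Cardinal.lift.{u} (𝔠 : Cardinal.{0}) := by
    rw [Cardinal.lift_continuum]
    exact h2.trans_lt h3
  exact Cardinal.lift_lt.1 h4

end Q178.Ext
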