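import Pool.Agent.Q178.Ext.Upper

set_option autoImplicit false
set_option linter.unusedSectionVars false

/-!
The Pruefer surface.
-/

namespace Q178.Ext

open Set Filter Topology Q178.HNH
open scoped Cardinal

/-- The points of the Pruefer surface: the open upper half-plane, and for every real `a` a closed
lower half-plane. -/
inductive Pr : Type
  | up (x y : ℝ) (h : 0 < y) : Pr
  | lo (a t r : ℝ) (h : r ≤ 0) : Pr

open Classical in
/-- The charts. -/
noncomputable def pch (a : ℝ) (p : ℝ × ℝ) : Pr :=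
  if h : 0 < p.2 then Pr.up (a + p.1 * p.2) p.2 h else Pr.lo a p.1 p.2 (not_lt.1 h)

noncomputable instance : TopologicalSpace Pr :=
  ⨆ a : ℝ, TopologicalSpace.coinduced (pch a) inferInstance

lemma pr_isOpen_iff {U : Set Pr} : IsOpen U ↔ ∀ a, IsOpen (pch a ⁻¹' U) := by
  rw [isOpen_iSup_iff]
  simp only [isOpen_coinduced]

lemma continuous_pch (a : ℝ) : Continuous (pch a) :=
  ⟨fun _ hU => pr_isOpen_iff.1 hU a⟩

lemma pch_pos (a : ℝ) {p : ℝ × ℝ} (h : 0 < p.2) : pch a p = Pr.up (a + p.1 * p.2) p.2 h :=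
  dif_pos h

lemma pch_nonpos (a : ℝ) {p : ℝ × ℝ} (h : p.2 ≤ 0) : pch a p = Pr.lo a p.1 p.2 h :=
  dif_neg (not_lt.2 h)

lemma pch_injective (a : ℝ) : Function.Injective (pch a) := by
  rintro ⟨t, r⟩ ⟨t', r'⟩ h
  by_cases hr : 0 < r
  · by_cases hr' : 0 < r'
    · rw [pch_pos a hr, pch_pos a hr'] at h
      simp only [Pr.up.injEq] at h
      obtain ⟨h1, rfl⟩ := h
      have h2 : t * r = t' * r := by linarith
      rw [mul_right_cancel₀ hr.ne' h2]
    · rw [pch_pos a hr, pch_nonpos a (not_lt.1 hr')] at h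
      cases h
  · by_cases hr' : 0 < r'
    · rw [pch_nonpos a (not_lt.1 hr), pch_pos a hr'] at h
      cases h
    · rw [pch_nonpos a (not_lt.1 hr), pch_nonpos a (not_lt.1 hr')] at h
      simp only [Pr.lo.injEq] at h
      rw [h.2.1, h.2.2]

/-- The height. -/
def ht : Pr → ℝ
  | Pr.up _ y _ => y
  | Pr.lo _ _ r _ => r

lemma ht_pch (a : ℝ) (p : ℝ × ℝ) : ht (pch a p) = p.2 := by
  by_cases h : 0 < p.2
  · rw [pch_pos a h]
    rfl
  · rw [pch_nonpos a (not_lt.1 h)]
    rfl

lemma pch_mem_range {a b : ℝ} (hab : a ≠ b) {p q : ℝ × ℝ} (h : pch a p = pch b q) :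
    p.2 = q.2 ∧ 0 < p.2 ∧ a + p.1 * p.2 = b + q.1 * q.2 := by
  have h1 : p.2 = q.2 := by rw [← ht_pch a p, h, ht_pch]
  by_cases hp : 0 < p.2
  · have hq : 0 < q.2 := h1 ▸ hp
    rw [pch_pos a hp, pch_pos b hq] at h
    simp only [Pr.up.injEq] at h
    exact ⟨h1, hp, h.1⟩
  · have hq : q.2 ≤ 0 := by
      rw [← h1]
      exact not_lt.1 hp
    rw [pch_nonpos a (not_lt.1 hp), pch_nonpos b hq] at h
    simp only [Pr.lo.injEq] at h
    exact absurd h.1 hab

lemma isOpenMap_pch (a : ℝ) : IsOpenMap (pch a) := by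
  intro O hO
  rw [pr_isOpen_iff]
  intro b
  by_cases hab : b = a
  · rw [hab, preimage_image_eq _ (pch_injective a)]
    exact hO
  · have h1 : pch b ⁻¹' (pch a '' O) =
        {p : ℝ × ℝ | 0 < p.2} ∩ (fun p : ℝ × ℝ => ((b + p.1 * p.2 - a) / p.2, p.2)) ⁻¹' O := by
      ext p
      constructor
      · rintro ⟨q, hq, hqp⟩
        obtain ⟨h2, h3, h4⟩ := pch_mem_range hab hqp.symm
        refine ⟨h3, ?_⟩
        have h5 : ((b + p.1 * p.2 - a) / p.2, p.2) = q := by
          apply Prod.ext
          · change (b + p.1 * p.2 - a) / p.2 = q.1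
            rw [div_eq_iff h3.ne', h4, h2]
            ring
          · exact h2
        change ((b + p.1 * p.2 - a) / p.2, p.2) ∈ O
        rw [h5]
        exact hq
      · rintro ⟨h2, h3⟩
        have h2' : 0 < p.2 := h2
        refine ⟨_, h3, ?_⟩
        rw [pch_pos a (p := ((b + p.1 * p.2 - a) / p.2, p.2)) h2', pch_pos b h2']
        congr 1
        change a + (b + p.1 * p.2 - a) / p.2 * p.2 = b + p.1 * p.2
        rw [div_mul_cancel₀ _ h2'.ne']
        ring
    rw [h1]
    apply ContinuousOn.isOpen_inter_preimage _ (isOpen_lt continuous_const continuous_snd) hO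
    apply ContinuousOn.prodMk _ continuousOn_snd
    apply ContinuousOn.div (by fun_prop) continuousOn_snd
    intro p hp
    exact ne_of_gt hp

lemma isOpenEmbedding_pch (a : ℝ) : IsOpenEmbedding (pch a) :=
  .of_continuous_injective_isOpenMap (continuous_pch a) (pch_injective a) (isOpenMap_pch a)

lemma continuous_ht : Continuous ht := by
  constructor
  intro U hU
  rw [pr_isOpen_iff]
  intro a
  have : pch a ⁻¹' (ht ⁻¹' U) = Prod.snd ⁻¹' U := by
    ext p
    simp [ht_pch]
  rw [this]
  exact hU.preimage continuous_snd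

lemma exists_pch (z : Pr) : ∃ a p, pch a p = z := by
  rcases z with ⟨x, y, h⟩ | ⟨a, t, r, h⟩
  · refine ⟨0, (x / y, y), ?_⟩
    rw [pch_pos 0 (p := (x / y, y)) h]
    congr 1
    change 0 + x / y * y = x
    rw [div_mul_cancel₀ _ h.ne', zero_add]
  · exact ⟨a, (t, r), pch_nonpos a (p := (t, r)) h⟩

lemma up_mem_range (a x y : ℝ) (h : 0 < y) : Pr.up x y h ∈ range (pch a) := by
  refine ⟨((x - a) / y, y), ?_⟩
  rw [pch_pos a (p := ((x - a) / y, y)) h]
  congr 1
  change a + (x - a) / y * y = x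
  rw [div_mul_cancel₀ _ h.ne']
  ring

lemma isOpenMap_ht : IsOpenMap ht := by
  intro U hU
  have h1 : ht '' U = ⋃ a, Prod.snd '' (pch a ⁻¹' U) := by
    ext y
    simp only [mem_image, mem_iUnion, mem_preimage]
    constructor
    · rintro ⟨z, hz, rfl⟩
      obtain ⟨a, p, rfl⟩ := exists_pch z
      exact ⟨a, p, hz, (ht_pch a p).symm⟩
    · rintro ⟨a, p, hp, rfl⟩
      exact ⟨_, hp, ht_pch a p⟩
  rw [h1]
  exact isOpen_iUnion fun a => isOpenMap_snd _ (hU.preimage (continuous_pch a))

lemma sep_of_chart {a : ℝ} {z w : Pr} (hz : z ∈ range (pch a)) (hw : w ∈ range (pch a))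
    (hne : z ≠ w) : ∃ U V : Set Pr, IsOpen U ∧ IsOpen V ∧ z ∈ U ∧ w ∈ V ∧ Disjoint U V := by
  obtain ⟨p, rfl⟩ := hz
  obtain ⟨q, rfl⟩ := hw
  have hpq : p ≠ q := fun h => hne (by rw [h])
  obtain ⟨U, V, hU, hV, hp, hq, hd⟩ := t2_separation hpq
  exact ⟨_, _, isOpenMap_pch a U hU, isOpenMap_pch a V hV, mem_image_of_mem _ hp,
    mem_image_of_mem _ hq, (disjoint_image_iff (pch_injective a)).2 hd⟩

instance : T2Space Pr := by
  constructor
  intro z w hne
  rcases z with ⟨x, y, h⟩ | ⟨a, t, r, h⟩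
  · rcases w with ⟨x', y', h'⟩ | ⟨a', t', r', h'⟩
    · exact sep_of_chart (up_mem_range 0 x y h) (up_mem_range 0 x' y' h') hne
    · exact sep_of_chart (up_mem_range a' x y h)
        ⟨(t', r'), pch_nonpos a' (p := (t', r')) h'⟩ hne
  · rcases w with ⟨x', y', h'⟩ | ⟨a', t', r', h'⟩
    · exact sep_of_chart ⟨(t, r), pch_nonpos a (p := (t, r)) h⟩ (up_mem_range a x' y' h') hne
    · by_cases haa : a = a'
      · subst haa
        exact sep_of_chart ⟨(t, r), pch_nonpos a (p := (t, r)) h⟩
          ⟨(t', r'), pch_nonpos a (p := (t', r')) h'⟩ hne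
      · -- different collars
        set T : ℝ := |t| + |t'| + 1 with hT
        have hT0 : 0 < T := by positivity
        set δ : ℝ := |a - a'| / (2 * T) with hδ
        have haa' : 0 < |a - a'| := abs_pos.2 (sub_ne_zero.2 haa)
        have hδ0 : 0 < δ := by positivity
        let O : Set (ℝ × ℝ) := {p | |p.1| < T ∧ p.2 < δ}
        have hO : IsOpen O := by
          have hc : Continuous fun p : ℝ × ℝ => |p.1| := by fun_prop
          exact (isOpen_lt hc (continuous_const (y := T))).inter
            (isOpen_lt continuous_snd (continuous_const (y := δ)))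
        refine ⟨pch a '' O, pch a' '' O, isOpenMap_pch a O hO, isOpenMap_pch a' O hO,
          ⟨(t, r), ⟨?_, ?_⟩, pch_nonpos a (p := (t, r)) h⟩,
          ⟨(t', r'), ⟨?_, ?_⟩, pch_nonpos a' (p := (t', r')) h'⟩, ?_⟩
        · change |t| < T
          linarith [abs_nonneg t']
        · change r < δ
          linarith
        · change |t'| < T
          linarith [abs_nonneg t]
        · change r' < δ
          linarith
        · rw [Set.disjoint_left]
          rintro _ ⟨p, ⟨hp1, hp2⟩, rfl⟩ ⟨q, ⟨hq1, hq2⟩, hpq⟩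
          obtain ⟨h1, h2, h3⟩ := pch_mem_range haa hpq.symm
          have h4 : a - a' = (q.1 - p.1) * p.2 := by
            rw [← h1] at h3
            linarith
          have h5 : |a - a'| < 2 * T * δ := by
            rw [h4, abs_mul, abs_of_pos h2]
            have h6 : |q.1 - p.1| < 2 * T := by
              have := abs_sub q.1 p.1
              linarith
            have h7 : |q.1 - p.1| * p.2 ≤ |q.1 - p.1| * δ :=
              mul_le_mul_of_nonneg_left hp2.le (abs_nonneg _)
            have h8 : |q.1 - p.1| * δ < 2 * T * δ := mul_lt_mul_of_pos_right h6 hδ0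
            linarith
          rw [hδ] at h5
          have h6 : 2 * T * (|a - a'| / (2 * T)) = |a - a'| := by
            field_simp
          rw [h6] at h5
          exact lt_irrefl _ h5

/-- The Pruefer surface is a connected surface. -/
theorem isMfd_Pr : IsMfd 2 Pr where
  connected := by
    have : PreconnectedSpace Pr := by
      constructor
      apply isPreconnected_of_forall (Pr.up 0 1 one_pos)
      intro z _
      obtain ⟨a, p, rfl⟩ := exists_pch z
      exact ⟨range (pch a), subset_univ _, up_mem_range a 0 1 one_pos, mem_range_self p,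
        isPreconnected_range (continuous_pch a)⟩
    exact { toPreconnectedSpace := this, toNonempty := ⟨Pr.up 0 1 one_pos⟩ }
  euclidean := by
    intro z
    obtain ⟨a, p, rfl⟩ := exists_pch z
    obtain ⟨e⟩ := FiniteDimensional.nonempty_continuousLinearEquiv_of_finrank_eq (𝕜 := ℝ)
      (E := ℝ × ℝ) (F := EuclideanSpace ℝ (Fin 2)) (by simp)
    exact ⟨range (pch a), (isOpenEmbedding_pch a).isOpen_range, mem_range_self p,
      ⟨(isOpenEmbedding_pch a).toIsEmbedding.toHomeomorph.symm.trans e.toHomeomorph⟩⟩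

/-- A discrete family of points. -/
def dsc (a : ℝ) : Pr := Pr.lo a 0 0 le_rfl

lemma dsc_mem_range_iff (a b : ℝ) : dsc a ∈ range (pch b) ↔ a = b := by
  constructor
  · rintro ⟨p, hp⟩
    by_contra h
    have h1 : pch a (0, 0) = dsc a := pch_nonpos a (p := (0, 0)) le_rfl
    rw [← h1] at hp
    have h2 := pch_mem_range h hp.symm
    exact lt_irrefl _ h2.2.1
  · rintro rfl
    exact ⟨(0, 0), pch_nonpos a (p := (0, 0)) le_rfl⟩

end Q178.Ext
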