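import Pool.Agent.Q178.Ext.Lower
import Pool.Agent.Q178.Ext.Prufer

set_option autoImplicit false
set_option linter.unusedSectionVars false

/-!
Doubling the points of a family of closed sets.
-/

namespace Q178.Ext

open Set Filter Topology Q178.HNH
open scoped Cardinal

variable {X ι : Type} [TopologicalSpace X]

/-- The space `X` together with a second copy of every point of `C i`, for every `i`. -/
def Tw (C : ι → Set X) : Type := {p : X × Option ι // ∀ i, p.2 = some i → p.1 ∈ C i}

open Classical in
/-- The sheets. -/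
noncomputable def sh (C : ι → Set X) : Option ι → X → Tw C
  | none, x => ⟨(x, none), by simp⟩
  | some i, x => if h : x ∈ C i then ⟨(x, some i), by
      intro j hj
      simp only [Option.some.injEq] at hj
      rw [← hj]
      exact h⟩ else ⟨(x, none), by simp⟩

noncomputable instance (C : ι → Set X) : TopologicalSpace (Tw C) :=
  ⨆ j : Option ι, TopologicalSpace.coinduced (sh C j) inferInstance

variable {C : ι → Set X}

lemma tw_isOpen_iff {U : Set (Tw C)} : IsOpen U ↔ ∀ j, IsOpen (sh C j ⁻¹' U) := by
  rw [isOpen_iSup_iff]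
  simp only [isOpen_coinduced]

lemma continuous_sh (C : ι → Set X) (j : Option ι) : Continuous (sh C j) :=
  ⟨fun _ hU => tw_isOpen_iff.1 hU j⟩

lemma sh_none_val (x : X) : (sh C none x).1 = (x, none) := rfl

lemma sh_some_mem {i : ι} {x : X} (h : x ∈ C i) : (sh C (some i) x).1 = (x, some i) := by
  simp [sh, h]

lemma sh_some_notMem {i : ι} {x : X} (h : x ∉ C i) : sh C (some i) x = sh C none x := by
  apply Subtype.ext
  simp [sh, h]

lemma sh_fst (j : Option ι) (x : X) : (sh C j x).1.1 = x := by
  rcases j with _ | i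
  · rfl
  · by_cases h : x ∈ C i
    · rw [sh_some_mem h]
    · rw [sh_some_notMem h]
      rfl

lemma sh_injective (j : Option ι) : Function.Injective (sh C j) := by
  intro x y h
  rw [← sh_fst (C := C) j x, h, sh_fst]

lemma exists_sh (z : Tw C) : ∃ j x, sh C j x = z := by
  obtain ⟨⟨x, j⟩, h⟩ := z
  rcases j with _ | i
  · exact ⟨none, x, rfl⟩
  · refine ⟨some i, x, ?_⟩
    apply Subtype.ext
    exact sh_some_mem (h i rfl)

lemma isOpen_eq (hC : ∀ i, IsClosed (C i)) (j k : Option ι) :
    IsOpen {x : X | sh C j x = sh C k x} := by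
  have key : ∀ i, {x : X | sh C none x = sh C (some i) x} = (C i)ᶜ := by
    intro i
    ext x
    constructor
    · intro h hx
      have h1 := congrArg (fun z : Tw C => z.1.2) (show sh C none x = sh C (some i) x from h)
      simp only [sh_none_val, sh_some_mem hx] at h1
      cases h1
    · intro hx
      exact (sh_some_notMem hx).symm
  by_cases hjk : j = k
  · rw [hjk]
    simp
  · rcases j with _ | i
    · rcases k with _ | i'
      · exact absurd rfl hjk
      · rw [key]
        exact (hC i').isOpen_compl
    · rcases k with _ | i'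
      · have h1 : {x : X | sh C (some i) x = sh C none x} = (C i)ᶜ := by
          rw [← key]
          ext x
          exact eq_comm
        rw [h1]
        exact (hC i).isOpen_compl
      · have hii : i ≠ i' := fun h => hjk (by rw [h])
        have h1 : {x : X | sh C (some i) x = sh C (some i') x} = (C i)ᶜ ∩ (C i')ᶜ := by
          ext x
          constructor
          · intro h
            have h' : sh C (some i) x = sh C (some i') x := h
            have h2 := congrArg (fun z : Tw C => z.1.2) h'
            by_cases hx : x ∈ C i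
            · by_cases hx' : x ∈ C i'
              · simp only [sh_some_mem hx, sh_some_mem hx', Option.some.injEq] at h2
                exact absurd h2 hii
              · simp only [sh_some_mem hx, sh_some_notMem hx', sh_none_val] at h2
                cases h2
            · by_cases hx' : x ∈ C i'
              · simp only [sh_some_mem hx', sh_some_notMem hx, sh_none_val] at h2
                cases h2
              · exact ⟨hx, hx'⟩
          · rintro ⟨hx, hx'⟩
            change sh C (some i) x = sh C (some i') x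
            rw [sh_some_notMem hx, sh_some_notMem hx']
        rw [h1]
        exact (hC i).isOpen_compl.inter (hC i').isOpen_compl

lemma isOpenMap_sh (hC : ∀ i, IsClosed (C i)) (j : Option ι) : IsOpenMap (sh C j) := by
  intro O hO
  rw [tw_isOpen_iff]
  intro k
  have h1 : sh C k ⁻¹' (sh C j '' O) = {x | sh C j x = sh C k x} ∩ O := by
    ext x
    constructor
    · rintro ⟨y, hy, hyx⟩
      have h2 : y = x := by rw [← sh_fst (C := C) j y, hyx, sh_fst]
      subst h2
      exact ⟨hyx, hy⟩
    · rintro ⟨h2, h3⟩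
      exact ⟨x, h3, h2⟩
  rw [h1]
  exact (isOpen_eq hC j k).inter hO

lemma isOpenEmbedding_sh (hC : ∀ i, IsClosed (C i)) (j : Option ι) : IsOpenEmbedding (sh C j) :=
  .of_continuous_injective_isOpenMap (continuous_sh C j) (sh_injective j) (isOpenMap_sh hC j)

lemma isMfd_Tw {n : ℕ} (hX : IsMfd n X) (hC : ∀ i, IsClosed (C i))
    (hint : ∀ i, interior (C i) = ∅) : IsMfd n (Tw C) := by
  have hconn := hX.connected
  obtain ⟨x0⟩ : Nonempty X := hconn.toNonempty
  constructor
  · have : PreconnectedSpace (Tw C) := by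
      constructor
      apply isPreconnected_of_forall (sh C none x0)
      intro z _
      obtain ⟨j, x, rfl⟩ := exists_sh z
      refine ⟨range (sh C none) ∪ range (sh C j), subset_univ _, Or.inl (mem_range_self _),
        Or.inr (mem_range_self _), ?_⟩
      rcases j with _ | i
      · rw [union_self]
        exact isPreconnected_range (continuous_sh C none)
      · obtain ⟨y, hy⟩ : ∃ y, y ∉ C i := by
          by_contra h
          push Not at h
          have h1 : C i = univ := eq_univ_of_forall h
          have h2 := hint i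
          rw [h1, interior_univ] at h2
          have h3 : x0 ∈ (univ : Set X) := mem_univ _
          rw [h2] at h3
          exact h3
        exact (isPreconnected_range (continuous_sh C none)).union (sh C none y)
          (mem_range_self _) ⟨y, sh_some_notMem hy⟩ (isPreconnected_range (continuous_sh C _))
    exact { toPreconnectedSpace := this, toNonempty := ⟨sh C none x0⟩ }
  · intro z
    obtain ⟨j, x, rfl⟩ := exists_sh z
    obtain ⟨e, he, ⟨v, hv⟩, -⟩ := mfdLoc hX x univ isOpen_univ (mem_univ _)
    have h1 := (isOpenEmbedding_sh hC j).comp he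
    exact ⟨_, h1.isOpen_range, ⟨v, by rw [Function.comp_apply, hv]⟩,
      ⟨h1.toIsEmbedding.toHomeomorph.symm⟩⟩

lemma twins (hint : ∀ i, interior (C i) = ∅) {i : ι} {x : X} {U V : Set (Tw C)}
    (hU : IsOpen U) (hV : IsOpen V) (hxU : sh C (some i) x ∈ U) (hxV : sh C none x ∈ V) :
    (U ∩ V).Nonempty := by
  have h1 : IsOpen (sh C (some i) ⁻¹' U ∩ sh C none ⁻¹' V) :=
    (hU.preimage (continuous_sh C _)).inter (hV.preimage (continuous_sh C _))
  have h2 : ¬ (sh C (some i) ⁻¹' U ∩ sh C none ⁻¹' V) ⊆ C i := by
    intro h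
    have h3 := interior_maximal h h1
    rw [hint i] at h3
    exact h3 ⟨hxU, hxV⟩
  obtain ⟨y, ⟨hy1, hy2⟩, hy3⟩ := not_subset.1 h2
  have hy1' : sh C (some i) y ∈ U := hy1
  rw [sh_some_notMem hy3] at hy1'
  exact ⟨_, hy1', hy2⟩

lemma isENH_Tw (hint : ∀ i, interior (C i) = ∅) (hcov : ⋃ i, C i = univ) : IsENH (Tw C) := by
  intro z
  have hne : ∀ i x, x ∈ C i → sh C (some i) x ≠ sh C none x := by
    intro i x hx h
    have h2 := congrArg (fun z : Tw C => z.1.2) h
    simp only [sh_none_val, sh_some_mem hx] at h2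
    cases h2
  obtain ⟨⟨x, j⟩, h⟩ := z
  rcases j with _ | i
  · have hx : x ∈ ⋃ i, C i := by rw [hcov]; exact mem_univ _
    obtain ⟨i, hi⟩ := mem_iUnion.1 hx
    exact ⟨sh C (some i) x, hne i x hi, fun U V hU hV hyU hzV => twins hint hU hV hyU hzV⟩
  · have hi : x ∈ C i := h i rfl
    have h1 : (⟨(x, some i), h⟩ : Tw C) = sh C (some i) x := Subtype.ext (sh_some_mem hi).symm
    rw [h1]
    refine ⟨sh C none x, (hne i x hi).symm, fun U V hU hV hyU hzV => ?_⟩
    rw [inter_comm]
    exact twins hint hV hU hzV hyU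

lemma hausNum_Tw_le [T2Space X] (hC : ∀ i, IsClosed (C i)) : hausNum (Tw C) ≤ #(Option ι) := by
  have h1 : hausNum (Tw C) ≤ #(range fun j => range (sh C j)) := by
    apply hausNum_le
    · rintro _ ⟨j, rfl⟩
      refine ⟨(isOpenEmbedding_sh hC j).isOpen_range, ?_⟩
      exact (isOpenEmbedding_sh hC j).toIsEmbedding.toHomeomorph.symm.isEmbedding.t2Space
    · apply eq_univ_of_forall
      intro z
      obtain ⟨j, x, rfl⟩ := exists_sh z
      exact ⟨_, ⟨j, rfl⟩, mem_range_self x⟩
  exact h1.trans Cardinal.mk_range_le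

/-- A lower bound for the Euclidean covering number. -/
lemma euclNum_ge {n : ℕ} {M : Type} [TopologicalSpace M] (hM : Loc n M) (d : ℝ → M)
    (O : ℝ → Set M) (hO : ∀ a, IsOpen (O a)) (hd : ∀ a, d a ∈ O a)
    (hne : ∀ a b, d a ∈ O b → a = b) : 𝔠 ≤ euclNum n M := by
  obtain ⟨T, hT, hcov, hcard⟩ := euclNum_mem M hM
  rw [← hcard]
  -- every member contains countably many of the points
  have h1 : ∀ U ∈ T, {a | d a ∈ U}.Countable := by
    intro U hU
    obtain ⟨hUo, ⟨e⟩⟩ := hT U hU
    have : SecondCountableTopology U := e.isEmbedding.secondCountableTopology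
    obtain ⟨B, hBc, -, hB⟩ := TopologicalSpace.exists_countable_basis U
    have h2 : ∀ a : {a | d a ∈ U}, ∃ W ∈ B, (⟨d a.1, a.2⟩ : U) ∈ W ∧
        W ⊆ Subtype.val ⁻¹' O a.1 := fun a =>
      hB.exists_subset_of_mem_open (a := (⟨d a.1, a.2⟩ : U))
        (u := Subtype.val ⁻¹' O a.1) (hd a.1) ((hO a.1).preimage continuous_subtype_val)
    choose W hWB hW1 hW2 using h2
    have hinj : Function.Injective fun a : {a | d a ∈ U} => (⟨W a, hWB a⟩ : B) := by
      intro a b hab
      have h3 : W a = W b := congrArg Subtype.val hab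
      have h4 := hW1 a
      rw [h3] at h4
      exact Subtype.ext (hne a.1 b.1 (hW2 b h4))
    have : Countable B := hBc.to_subtype
    exact hinj.countable
  have h2 : (univ : Set ℝ) = ⋃ U : T, {a | d a ∈ U.1} := by
    symm
    apply eq_univ_of_forall
    intro a
    have h3 : d a ∈ ⋃₀ T := by rw [hcov]; exact mem_univ _
    obtain ⟨U, hU, ha⟩ := h3
    exact mem_iUnion.2 ⟨⟨U, hU⟩, ha⟩
  have h3 : 𝔠 ≤ #T * ℵ₀ := by
    rw [← Cardinal.mk_real, ← Cardinal.mk_univ, h2]
    refine (Cardinal.mk_iUnion_le _).trans ?_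
    gcongr
    apply ciSup_le'
    intro U
    exact (h1 U.1 U.2).le_aleph0
  by_contra h
  rw [not_le] at h
  exact absurd (Cardinal.mul_lt_of_lt Cardinal.aleph0_le_continuum h
    Cardinal.aleph0_lt_continuum) (not_lt.2 h3)

/-- If the covering number of category is less than the continuum, there is an everywhere
non-Hausdorff surface with different covering numbers. -/
theorem exists_of_lt (h : covB < 𝔠) : ∃ (M : Type) (_ : TopologicalSpace M),
    IsMfd 2 M ∧ IsENH M ∧ hausNum M < euclNum 2 M := by
  have hne : {κ | ∃ T : Set (Set ℝ), (∀ Z ∈ T, IsNowhereDense Z) ∧ ⋃₀ T = univ ∧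
      #T = κ}.Nonempty := by
    refine ⟨_, range fun x : ℝ => ({x} : Set ℝ), ?_, ?_, rfl⟩
    · rintro _ ⟨x, rfl⟩
      rw [isClosed_singleton.isNowhereDense_iff]
      exact interior_singleton x
    · rw [sUnion_range]
      apply eq_univ_of_forall
      intro x
      exact mem_iUnion.2 ⟨x, rfl⟩
  obtain ⟨T, hT, hcov, hcard⟩ : ∃ T : Set (Set ℝ), (∀ Z ∈ T, IsNowhereDense Z) ∧ ⋃₀ T = univ ∧
      #T = covB := csInf_mem hne
  let C : T → Set Pr := fun Z => ht ⁻¹' closure Z.1
  have hC : ∀ Z, IsClosed (C Z) := fun Z => isClosed_closure.preimage continuous_ht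
  have hint : ∀ Z, interior (C Z) = ∅ := by
    intro Z
    rw [eq_empty_iff_forall_notMem]
    intro x hx
    have h1 : ht '' interior (C Z) ⊆ interior (closure Z.1) := by
      apply interior_maximal _ (isOpenMap_ht _ isOpen_interior)
      rintro _ ⟨y, hy, rfl⟩
      have h4 : y ∈ C Z := interior_subset hy
      exact h4
    have h2 : interior (closure Z.1) = ∅ := hT Z.1 Z.2
    have h3 := h1 (mem_image_of_mem ht hx)
    rw [h2] at h3
    exact h3
  have hcovC : ⋃ Z, C Z = univ := by
    apply eq_univ_of_forall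
    intro x
    have h1 : ht x ∈ ⋃₀ T := by rw [hcov]; exact mem_univ _
    obtain ⟨Z, hZ, hx⟩ := h1
    exact mem_iUnion.2 ⟨⟨Z, hZ⟩, subset_closure hx⟩
  have hM : IsMfd 2 (Tw C) := isMfd_Tw isMfd_Pr hC hint
  refine ⟨Tw C, inferInstance, hM, isENH_Tw hint hcovC, ?_⟩
  have h1 : hausNum (Tw C) < 𝔠 := by
    refine (hausNum_Tw_le hC).trans_lt ?_
    rw [Cardinal.mk_option, hcard]
    exact Cardinal.add_lt_of_lt Cardinal.aleph0_le_continuum h
      (Cardinal.one_lt_aleph0.trans Cardinal.aleph0_lt_continuum)
  have h2 : 𝔠 ≤ euclNum 2 (Tw C) := by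
    apply euclNum_ge (mfdLoc hM) (fun a => sh C none (dsc a))
      (fun a => sh C none '' range (pch a))
    · intro a
      exact isOpenMap_sh hC none _ (isOpenEmbedding_pch a).isOpen_range
    · intro a
      exact mem_image_of_mem _ ((dsc_mem_range_iff a a).2 rfl)
    · rintro a b ⟨x, hx, hxa⟩
      have h3 : x = dsc a := sh_injective none hxa
      rw [h3] at hx
      exact (dsc_mem_range_iff a b).1 hx
  exact h1.trans_le h2

end Q178.Ext
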