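import Pool.Agent.Q178.Ext.Defs

set_option autoImplicit false
set_option linter.unusedSectionVars false

/-!
The Euclidean covering number is at most the maximum of the continuum and the Hausdorff covering
number.
-/

universe u

namespace Q178.Ext

open Set Filter Topology Q178.HNH
open scoped Cardinal

/-- A space with Euclidean charts. -/
def Loc (n : ℕ) (P : Type u) [TopologicalSpace P] : Prop :=
  ∀ a : P, ∀ W : Set P, IsOpen W → a ∈ W →
    ∃ e : EuclideanSpace ℝ (Fin n) → P, IsOpenEmbedding e ∧ a ∈ range e ∧ range e ⊆ W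

lemma exists_ball_chart {n : ℕ} {O : Set (EuclideanSpace ℝ (Fin n))} (hO : IsOpen O)
    {p : EuclideanSpace ℝ (Fin n)} (hp : p ∈ O) :
    ∃ e : EuclideanSpace ℝ (Fin n) → EuclideanSpace ℝ (Fin n), IsOpenEmbedding e ∧ p ∈ range e ∧
      range e ⊆ O := by
  obtain ⟨r, hr, hball⟩ := Metric.isOpen_iff.1 hO p hp
  let φ := OpenPartialHomeomorph.univBall (E := EuclideanSpace ℝ (Fin n)) p r
  have h1 : φ.source = univ := OpenPartialHomeomorph.univBall_source p r
  have h2 : φ.target = Metric.ball p r := OpenPartialHomeomorph.univBall_target p hr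
  have h3 : range φ = Metric.ball p r := by
    rw [← image_univ, ← h1, φ.image_source_eq_target, h2]
  refine ⟨φ, φ.isOpenEmbedding h1, ?_, ?_⟩
  · rw [h3]
    exact Metric.mem_ball_self hr
  · rw [h3]
    exact hball

lemma mfdLoc {n : ℕ} {M : Type u} [TopologicalSpace M] (hM : IsMfd n M) : Loc n M := by
  intro a W hW ha
  obtain ⟨U, hU, haU, ⟨f⟩⟩ := hM.euclidean a
  let g : EuclideanSpace ℝ (Fin n) → M := fun v => (f.symm v : M)
  have hg : IsOpenEmbedding g := hU.isOpenEmbedding_subtypeVal.comp f.symm.isOpenEmbedding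
  have hO : IsOpen (g ⁻¹' W) := hW.preimage hg.continuous
  have hp : f ⟨a, haU⟩ ∈ g ⁻¹' W := by
    change (f.symm (f ⟨a, haU⟩) : M) ∈ W
    rw [f.symm_apply_apply]
    exact ha
  obtain ⟨e, he, hpe, heO⟩ := exists_ball_chart hO hp
  refine ⟨g ∘ e, hg.comp he, ?_, ?_⟩
  · obtain ⟨v, hv⟩ := hpe
    refine ⟨v, ?_⟩
    change (f.symm (e v) : M) = a
    rw [hv, f.symm_apply_apply]
  · rintro _ ⟨v, rfl⟩
    exact heO ⟨v, rfl⟩

lemma Loc.subtype {n : ℕ} {M : Type u} [TopologicalSpace M] (hM : Loc n M) {W : Set M}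
    (hW : IsOpen W) : Loc n W := by
  intro a O hO ha
  obtain ⟨e, he, hae, heO⟩ := hM a.1 (Subtype.val '' O) (hW.isOpenMap_subtype_val O hO) ⟨a, ha, rfl⟩
  have hmem : ∀ v, e v ∈ W := by
    intro v
    obtain ⟨b, _, hb⟩ := heO ⟨v, rfl⟩
    rw [← hb]
    exact b.2
  refine ⟨fun v => ⟨e v, hmem v⟩, ?_, ?_, ?_⟩
  · exact IsOpenEmbedding.of_comp _ hW.isOpenEmbedding_subtypeVal he
  · obtain ⟨v, hv⟩ := hae
    exact ⟨v, Subtype.ext hv⟩
  · rintro _ ⟨v, rfl⟩
    obtain ⟨b, hb, hb'⟩ := heO ⟨v, rfl⟩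
    have h1 : b = ⟨e v, hmem v⟩ := Subtype.ext hb'
    change (⟨e v, hmem v⟩ : W) ∈ O
    rw [← h1]
    exact hb

lemma Loc.firstCountable {n : ℕ} {P : Type u} [TopologicalSpace P] (hP : Loc n P) :
    FirstCountableTopology P := by
  constructor
  intro a
  obtain ⟨e, he, ⟨v, rfl⟩, -⟩ := hP a univ isOpen_univ (mem_univ _)
  rw [← he.map_nhds_eq]
  infer_instance

/-- The labels of the codes. -/
abbrev Lbl (n : ℕ) : Type := Unit ⊕ (EuclideanSpace ℝ (Fin n) ⊕ Unit)

/-- The arities of the codes. -/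
def Ar (n : ℕ) : Lbl n → Type
  | Sum.inl _ => Empty
  | Sum.inr (Sum.inl _) => Unit
  | Sum.inr (Sum.inr _) => ℕ

lemma mk_Ar_le (n : ℕ) (a : Lbl n) : #(Ar n a) ≤ ℵ₀ := by
  rcases a with a | a | a
  · change #Empty ≤ ℵ₀
    simp
  · change #Unit ≤ ℵ₀
    simp
  · change #ℕ ≤ ℵ₀
    simp

lemma mk_codes_le (n : ℕ) : #(WType (Ar n)) ≤ 𝔠 := by
  apply WType.cardinalMk_le_of_le'
  have h1 : ∀ a : Lbl n, 𝔠 ^ Cardinal.lift.{0} #(Ar n a) ≤ 𝔠 := by
    intro a
    rw [Cardinal.lift_id]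
    calc 𝔠 ^ #(Ar n a) ≤ 𝔠 ^ ℵ₀ := Cardinal.power_le_power_left Cardinal.continuum_ne_zero (mk_Ar_le n a)
      _ = 𝔠 := Cardinal.continuum_power_aleph0
  have h2 : #(Lbl n) ≤ 𝔠 := by
    have h3 : #(EuclideanSpace ℝ (Fin n)) ≤ 𝔠 := by
      have e : EuclideanSpace ℝ (Fin n) ≃ (Fin n → ℝ) := (WithLp.equiv 2 (Fin n → ℝ))
      rw [Cardinal.mk_congr e, ← Cardinal.power_def, Cardinal.mk_real]
      calc 𝔠 ^ #(Fin n) ≤ 𝔠 ^ ℵ₀ :=
            Cardinal.power_le_power_left Cardinal.continuum_ne_zero (Cardinal.mk_le_aleph0)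
        _ = 𝔠 := Cardinal.continuum_power_aleph0
    simp only [Cardinal.mk_sum, Cardinal.lift_id, Cardinal.mk_unit]
    have h4 : (1 : Cardinal) ≤ 𝔠 := Cardinal.one_le_aleph0.trans Cardinal.aleph0_le_continuum
    calc 1 + (#(EuclideanSpace ℝ (Fin n)) + 1) ≤ 𝔠 + (𝔠 + 𝔠) := by gcongr
      _ = 𝔠 := by simp
  calc (Cardinal.sum fun a : Lbl n => 𝔠 ^ Cardinal.lift.{0} #(Ar n a))
      ≤ Cardinal.sum fun _ : Lbl n => 𝔠 := Cardinal.sum_le_sum _ _ h1
    _ = #(Lbl n) * 𝔠 := by simp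
    _ ≤ 𝔠 * 𝔠 := by gcongr
    _ = 𝔠 := Cardinal.continuum_mul_self

open Classical in
/-- The limit of a sequence, or a default value. -/
noncomputable def limOr {P : Type u} [TopologicalSpace P] (x : P) (g : ℕ → P) : P :=
  if h : ∃ y, Tendsto g atTop (𝓝 y) then h.choose else x

lemma limOr_eq {P : Type u} [TopologicalSpace P] [T2Space P] (x : P) {g : ℕ → P} {y : P}
    (h : Tendsto g atTop (𝓝 y)) : limOr x g = y := by
  have h1 : ∃ y, Tendsto g atTop (𝓝 y) := ⟨y, h⟩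
  unfold limOr
  rw [dif_pos h1]
  exact tendsto_nhds_unique h1.choose_spec h

/-- One step of the evaluation of codes. -/
noncomputable def step {n : ℕ} {P : Type u} [TopologicalSpace P] (x : P)
    (e : P → EuclideanSpace ℝ (Fin n) → P) : (Σ a : Lbl n, Ar n a → P) → P
  | ⟨Sum.inl _, _⟩ => x
  | ⟨Sum.inr (Sum.inl v), g⟩ => e (g ()) v
  | ⟨Sum.inr (Sum.inr _), g⟩ => limOr x (show ℕ → P from g)

/-- In a Hausdorff space with Euclidean charts, every point lies in a clopen set of cardinality at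
most the continuum. -/
lemma exists_clopen {n : ℕ} {P : Type u} [TopologicalSpace P] [T2Space P] (hP : Loc n P) (x : P) :
    ∃ A : Set P, IsClopen A ∧ x ∈ A ∧ #A ≤ 𝔠 := by
  have := hP.firstCountable
  choose e he hae _ using fun a : P => hP a univ isOpen_univ (mem_univ _)
  let ev : WType (Ar n) → P := WType.elim P (step x e)
  refine ⟨range ev, ⟨?_, ?_⟩, ?_, ?_⟩
  · -- closed
    rw [← isSeqClosed_iff_isClosed]
    intro f y hf hy
    choose c hc using hf
    refine ⟨WType.mk (Sum.inr (Sum.inr ())) (fun k : ℕ => c k), ?_⟩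
    change limOr x (fun k : ℕ => ev (c k)) = y
    have h1 : (fun k : ℕ => ev (c k)) = f := funext hc
    rw [h1]
    exact limOr_eq x hy
  · -- open
    rw [isOpen_iff_mem_nhds]
    rintro _ ⟨c, rfl⟩
    have h1 : range (e (ev c)) ⊆ range ev := by
      rintro _ ⟨v, rfl⟩
      exact ⟨WType.mk (Sum.inr (Sum.inl v)) (fun _ : Unit => c), rfl⟩
    exact mem_of_superset ((he (ev c)).isOpen_range.mem_nhds (hae (ev c))) h1
  · exact ⟨WType.mk (Sum.inl ()) (fun x : Empty => x.elim), rfl⟩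
  · have h1 := Cardinal.mk_range_le_lift (f := ev)
    rw [Cardinal.lift_id'.{0, u}] at h1
    refine h1.trans ((Cardinal.lift_le.2 (mk_codes_le n)).trans (le_of_eq ?_))
    exact Cardinal.lift_continuum

/-- The cardinality of a manifold is at most the maximum of the continuum and the number of
open Hausdorff sets in a cover. -/
theorem mk_le {n : ℕ} {M : Type u} [TopologicalSpace M] (hM : IsMfd n M) (T : Set (Set M))
    (hT : ∀ U ∈ T, IsOpen U ∧ T2Space U) (hcov : ⋃₀ T = univ) : #M ≤ max 𝔠 #T := by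
  have hconn := hM.connected
  have hloc := (mfdLoc hM)
  -- clopen pieces
  have hA : ∀ (W : T) (x : M), ∃ A : Set M, #A ≤ 𝔠 ∧ IsOpen A ∧ (x ∈ W.1 → x ∈ A ∧ A ⊆ W.1 ∧
      IsOpen (W.1 \ A)) := by
    intro W x
    by_cases hx : x ∈ W.1
    · obtain ⟨hWo, hW2⟩ := hT W.1 W.2
      obtain ⟨A, hA1, hA2, hA3⟩ := exists_clopen (hloc.subtype hWo) (⟨x, hx⟩ : W.1)
      refine ⟨Subtype.val '' A, Cardinal.mk_image_le.trans hA3,
        hWo.isOpenMap_subtype_val A hA1.isOpen, fun _ => ⟨⟨_, hA2, rfl⟩, ?_, ?_⟩⟩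
      · rintro _ ⟨a, _, rfl⟩
        exact a.2
      · have h1 : W.1 \ Subtype.val '' A = Subtype.val '' Aᶜ := by
          ext y
          constructor
          · rintro ⟨hy, hyA⟩
            exact ⟨⟨y, hy⟩, fun h => hyA ⟨_, h, rfl⟩, rfl⟩
          · rintro ⟨a, ha, rfl⟩
            refine ⟨a.2, ?_⟩
            rintro ⟨b, hb, hab⟩
            exact ha (Subtype.ext hab ▸ hb)
        rw [h1]
        exact hWo.isOpenMap_subtype_val _ hA1.compl.isOpen
    · exact ⟨∅, by simp, isOpen_empty, fun h => absurd h hx⟩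
  choose A hA1 hA2 hA3 using hA
  obtain ⟨x0⟩ : Nonempty M := hconn.toNonempty
  -- the reachable set
  let S : ℕ → Set M := fun k => Nat.rec {x0} (fun _ B => ⋃ x : B, ⋃ W : T, A W x.1) k
  have hS0 : S 0 = {x0} := rfl
  have hSs : ∀ k, S (k + 1) = ⋃ x : S k, ⋃ W : T, A W x.1 := by
    intro k
    rfl
  set κ : Cardinal.{u} := max 𝔠 #T with hκ
  have hκ0 : ℵ₀ ≤ κ := Cardinal.aleph0_le_continuum.trans (le_max_left _ _)
  have hκc : 𝔠 ≤ κ := le_max_left _ _
  have hcard : ∀ k, #↥(S k) ≤ κ := by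
    intro k
    induction k with
    | zero =>
      rw [hS0, Cardinal.mk_singleton]
      exact Cardinal.one_le_aleph0.trans hκ0
    | succ k ih =>
      rw [hSs]
      have h1 : ∀ x : S k, #(⋃ W : T, A W x.1 : Set M) ≤ κ := by
        intro x
        refine (Cardinal.mk_iUnion_le _).trans ?_
        have h2 : (⨆ W : T, #(A W x.1 : Set M)) ≤ κ := by
          apply ciSup_le'
          intro W
          exact (hA1 W x.1).trans hκc
        calc #T * (⨆ W : T, #(A W x.1 : Set M)) ≤ κ * κ := by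
              gcongr
              exact le_max_right _ _
          _ = κ := Cardinal.mul_eq_self hκ0
      refine (Cardinal.mk_iUnion_le _).trans ?_
      have h2 : (⨆ x : S k, #(⋃ W : T, A W x.1 : Set M)) ≤ κ := by
        apply ciSup_le'
        exact h1
      calc #↥(S k) * (⨆ x : S k, #(⋃ W : T, A W x.1 : Set M)) ≤ κ * κ := by gcongr
        _ = κ := Cardinal.mul_eq_self hκ0
  -- the union is clopen
  let R : Set M := ⋃ k, S k
  have hR : ∀ x ∈ R, ∀ W : T, A W x ⊆ R := by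
    intro x hx W y hy
    obtain ⟨k, hk⟩ := mem_iUnion.1 hx
    refine mem_iUnion.2 ⟨k + 1, ?_⟩
    rw [hSs]
    exact mem_iUnion.2 ⟨⟨x, hk⟩, mem_iUnion.2 ⟨W, hy⟩⟩
  have hcovx : ∀ x : M, ∃ W : T, x ∈ W.1 := by
    intro x
    have : x ∈ ⋃₀ T := by rw [hcov]; exact mem_univ x
    obtain ⟨W, hW, hx⟩ := this
    exact ⟨⟨W, hW⟩, hx⟩
  have hRo : IsOpen R := by
    rw [isOpen_iff_mem_nhds]
    intro x hx
    obtain ⟨W, hxW⟩ := hcovx x
    exact mem_of_superset ((hA2 W x).mem_nhds (hA3 W x hxW).1) (hR x hx W)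
  have hRc : IsOpen Rᶜ := by
    rw [isOpen_iff_mem_nhds]
    intro y hy
    obtain ⟨W, hyW⟩ := hcovx y
    obtain ⟨e, he, hye, heW⟩ := hloc y W.1 (hT W.1 W.2).1 hyW
    refine mem_of_superset (he.isOpen_range.mem_nhds hye) ?_
    intro x hxe hxR
    apply hy
    have hxW := heW hxe
    obtain ⟨h1, h2, h3⟩ := hA3 W x hxW
    have hpre : IsPreconnected (range e) := isPreconnected_range he.continuous
    -- the range of the chart lies in the piece
    have h4 : range e ⊆ A W x := by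
      apply hpre.subset_left_of_subset_union (hA2 W x) h3
      · exact disjoint_sdiff_right
      · intro z hz
        by_cases hzA : z ∈ A W x
        · exact Or.inl hzA
        · exact Or.inr ⟨heW hz, hzA⟩
      · exact ⟨x, hxe, h1⟩
    exact hR x hxR W (h4 hye)
  have hRu : R = univ := by
    have h1 : IsClopen R := ⟨⟨hRc⟩, hRo⟩
    rcases isClopen_iff.1 h1 with h2 | h2
    · exfalso
      have h3 : x0 ∈ R := mem_iUnion.2 ⟨0, by rw [hS0]; exact mem_singleton _⟩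
      rw [h2] at h3
      exact h3
    · exact h2
  have h1 : #M = #R := by
    rw [hRu, Cardinal.mk_univ]
  rw [h1]
  have h2 := Cardinal.mk_iUnion_le_lift (fun k : ℕ => S k)
  rw [Cardinal.lift_id'.{0, u}] at h2
  refine h2.trans ?_
  have h3 : (⨆ k : ℕ, Cardinal.lift.{0} #↥(S k)) ≤ κ := by
    apply ciSup_le'
    intro k
    rw [Cardinal.lift_id'.{0, u}]
    exact hcard k
  calc Cardinal.lift.{u} #ℕ * (⨆ k : ℕ, Cardinal.lift.{0} #↥(S k)) ≤ κ * κ := by
        gcongr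
        simpa using hκ0
    _ = κ := Cardinal.mul_eq_self hκ0

lemma hausNum_mem (M : Type u) [TopologicalSpace M] {n : ℕ} (hM : Loc n M) :
    ∃ T : Set (Set M), (∀ U ∈ T, IsOpen U ∧ T2Space U) ∧ ⋃₀ T = univ ∧ #T = hausNum M := by
  have hne : {κ | ∃ T : Set (Set M), (∀ U ∈ T, IsOpen U ∧ T2Space U) ∧ ⋃₀ T = univ ∧
      #T = κ}.Nonempty := by
    refine ⟨_, {U | IsOpen U ∧ T2Space U}, fun U hU => hU, ?_, rfl⟩
    apply eq_univ_of_forall
    intro x
    obtain ⟨e, he, hx, -⟩ := hM x univ isOpen_univ (mem_univ _)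
    exact ⟨range e, ⟨he.isOpen_range, he.toIsEmbedding.toHomeomorph.symm.isEmbedding.t2Space⟩, hx⟩
  exact csInf_mem hne

lemma hausNum_le {M : Type u} [TopologicalSpace M] {T : Set (Set M)}
    (hT : ∀ U ∈ T, IsOpen U ∧ T2Space U) (hcov : ⋃₀ T = univ) : hausNum M ≤ #T :=
  csInf_le' ⟨T, hT, hcov, rfl⟩

lemma euclNum_le {n : ℕ} {M : Type u} [TopologicalSpace M] {T : Set (Set M)}
    (hT : ∀ U ∈ T, IsOpen U ∧ Nonempty (U ≃ₜ EuclideanSpace ℝ (Fin n))) (hcov : ⋃₀ T = univ) :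
    euclNum n M ≤ #T :=
  csInf_le' ⟨T, hT, hcov, rfl⟩

lemma euclNum_mem {n : ℕ} (M : Type u) [TopologicalSpace M] (hM : Loc n M) :
    ∃ T : Set (Set M), (∀ U ∈ T, IsOpen U ∧ Nonempty (U ≃ₜ EuclideanSpace ℝ (Fin n))) ∧
      ⋃₀ T = univ ∧ #T = euclNum n M := by
  have hne : {κ | ∃ T : Set (Set M), (∀ U ∈ T, IsOpen U ∧
      Nonempty (U ≃ₜ EuclideanSpace ℝ (Fin n))) ∧ ⋃₀ T = univ ∧ #T = κ}.Nonempty := by
    refine ⟨_, {U | IsOpen U ∧ Nonempty (U ≃ₜ EuclideanSpace ℝ (Fin n))}, fun U hU => hU, ?_, rfl⟩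
    apply eq_univ_of_forall
    intro x
    obtain ⟨e, he, hx, -⟩ := hM x univ isOpen_univ (mem_univ _)
    exact ⟨range e, ⟨he.isOpen_range, ⟨he.toIsEmbedding.toHomeomorph.symm⟩⟩, hx⟩
  exact csInf_mem hne

/-- The Hausdorff covering number is at most the Euclidean covering number. -/
theorem hausNum_le_euclNum {n : ℕ} (M : Type u) [TopologicalSpace M] (hM : Loc n M) :
    hausNum M ≤ euclNum n M := by
  obtain ⟨T, hT, hcov, hcard⟩ := euclNum_mem M hM
  rw [← hcard]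
  apply hausNum_le _ hcov
  intro U hU
  obtain ⟨h1, ⟨e⟩⟩ := hT U hU
  exact ⟨h1, e.isEmbedding.t2Space⟩

/-- The Euclidean covering number is at most the maximum of the continuum and the Hausdorff
covering number. -/
theorem euclNum_le_max {n : ℕ} {M : Type u} [TopologicalSpace M] (hM : IsMfd n M) :
    euclNum n M ≤ max 𝔠 (hausNum M) := by
  obtain ⟨T, hT, hcov, hcard⟩ := hausNum_mem M (mfdLoc hM)
  rw [← hcard]
  refine le_trans ?_ (mk_le hM T hT hcov)
  choose e he hx _ using fun x : M => (mfdLoc hM) x univ isOpen_univ (mem_univ _)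
  have h1 : euclNum n M ≤ #(range fun x : M => range (e x)) := by
    apply euclNum_le
    · rintro _ ⟨x, rfl⟩
      exact ⟨(he x).isOpen_range, ⟨(he x).toIsEmbedding.toHomeomorph.symm⟩⟩
    · apply eq_univ_of_forall
      intro x
      exact ⟨_, ⟨x, rfl⟩, hx x⟩
  exact h1.trans Cardinal.mk_range_le

end Q178.Ext
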